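import Pool.Agent.Helper41.JT.Defs
import Pool.Agent.Helper79.GR.DE

/-!
# JT, piece (C): counting the directed edges with `E_f` (helper67)
-/

set_option autoImplicit false

namespace Pool.Agent.Helper41.JT

open Pool.Agent.Helper79.GR

variable {d : ℕ}

private theorem cost_nn {c : Edge d → ℝ} (hc : Ok c) (x : V d) (w : List (St d)) :
    0 ≤ cost c x w := by
  induction w generalizing x with
  | nil => simp [cost]
  | cons s w ih => exact add_nonneg (hc.ps _).le (ih _)

private theorem T_le {c : Edge d → ℝ} (hc : Ok c) {x y : V d} {w : List (St d)}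
    (hw : pos x w = y) : T c x y ≤ cost c x w := by
  refine ciInf_le (f := fun w : {w : List (St d) // pos x w = y} => cost c x w.1) ?_ ⟨w, hw⟩
  exact ⟨0, by rintro _ ⟨w, rfl⟩; exact cost_nn hc _ _⟩

private theorem ex_min {c : Edge d → ℝ} (hc : Ok c) (x y : V d) :
    ∃ w, pos x w = y ∧ cost c x w = T c x y := by
  obtain ⟨w₀, hw₀, -⟩ := exists_walk x y
  set S : Set (List (St d)) := {w | pos x w = y ∧ cost c x w ≤ cost c x w₀} with hS
  have hfin : S.Finite := (hc.fin x (cost c x w₀)).subset fun w hw => hw.2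
  obtain ⟨w₁, hw₁, hmin⟩ := Set.exists_min_image S (fun w => cost c x w) hfin ⟨w₀, hw₀, le_rfl⟩
  have hall : ∀ w : List (St d), pos x w = y → cost c x w₁ ≤ cost c x w := by
    intro w hw
    by_cases h : cost c x w ≤ cost c x w₀
    · exact hmin w ⟨hw, h⟩
    · exact (hmin w₀ ⟨hw₀, le_rfl⟩).trans (not_le.mp h).le
  refine ⟨w₁, hw₁.1, le_antisymm ?_ (T_le hc hw₁.1)⟩
  have : Nonempty {w : List (St d) // pos x w = y} := ⟨⟨w₀, hw₀⟩⟩
  exact le_ciInf fun w => hall w.1 w.2

private theorem geo_eq {c : Edge d → ℝ} (hc : Ok c) {x : V d} {w : List (St d)}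
    (hw : Geo c x w) : cost c x w = T c x (pos x w) := by
  obtain ⟨w', hw', hc'⟩ := ex_min hc x (pos x w)
  refine le_antisymm ?_ (T_le hc rfl)
  rw [← hc']
  exact hw w' hw'

private theorem geo_of_le {c : Edge d → ℝ} (hc : Ok c) {x : V d} {w : List (St d)}
    (hw : cost c x w ≤ T c x (pos x w)) : Geo c x w :=
  fun _ hw' => hw.trans (T_le hc hw')

private theorem tri {c : Edge d → ℝ} (hc : Ok c) (x y z : V d) :
    T c x z ≤ T c x y + T c y z := by
  obtain ⟨w, hw, h1⟩ := ex_min hc x y
  obtain ⟨w', hw', h2⟩ := ex_min hc y z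
  have h3 : pos x (w ++ w') = z := by rw [pos_append, hw, hw']
  have h4 := T_le hc h3
  rwa [cost_append, hw, h1, h2] at h4

private theorem sv_inj {s s' : St d} (h : sv s = sv s') : s = s' := by
  obtain ⟨i, b⟩ := s
  obtain ⟨j, b'⟩ := s'
  have hij : i = j := by
    by_contra hne
    have h1 := congrFun h i
    simp only [sv, Pi.single_eq_same, Pi.single_eq_of_ne hne] at h1
    cases b <;> simp at h1
  subst hij
  have h1 := congrFun h i
  simp only [sv, Pi.single_eq_same] at h1
  cases b <;> cases b' <;> simp at h1 <;> rfl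

theorem mem_des {x : V d} {w : List (St d)} {p : V d} {s : St d} :
    (p, s) ∈ des x w ↔ ∃ u v, w = u ++ s :: v ∧ pos x u = p := by
  induction w generalizing x with
  | nil => simp [des]
  | cons t w ih =>
    constructor
    · intro h
      rcases List.mem_cons.1 h with h | h
      · simp only [Prod.mk.injEq] at h
        obtain ⟨rfl, rfl⟩ := h
        exact ⟨[], w, rfl, rfl⟩
      · obtain ⟨u, v, rfl, hu⟩ := ih.1 h
        exact ⟨t :: u, v, rfl, hu⟩
    · rintro ⟨u, v, hw, hu⟩
      rcases u with _ | ⟨t', u⟩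
      · simp only [List.nil_append, List.cons.injEq] at hw
        obtain ⟨rfl, rfl⟩ := hw
        simp only [pos] at hu
        subst hu
        exact List.mem_cons_self
      · simp only [List.cons_append, List.cons.injEq] at hw
        obtain ⟨rfl, rfl⟩ := hw
        exact List.mem_cons_of_mem _ (ih.2 ⟨u, v, rfl, hu⟩)

private theorem mem_eds_iff {x : V d} {w : List (St d)} {e : Edge d} :
    e ∈ eds x w ↔ ∃ u s v, w = u ++ s :: v ∧ ed (pos x u) s = e := by
  induction w generalizing x with
  | nil => simp [eds]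
  | cons t w ih =>
    constructor
    · intro h
      rcases List.mem_cons.1 h with h | h
      · exact ⟨[], t, w, rfl, h.symm⟩
      · obtain ⟨u, s, v, rfl, hu⟩ := ih.1 h
        exact ⟨t :: u, s, v, rfl, hu⟩
    · rintro ⟨u, s, v, hw, hu⟩
      rcases u with _ | ⟨t', u⟩
      · simp only [List.nil_append, List.cons.injEq] at hw
        obtain ⟨rfl, rfl⟩ := hw
        simp only [pos] at hu
        rw [← hu]
        exact List.mem_cons_self
      · simp only [List.cons_append, List.cons.injEq] at hw
        obtain ⟨rfl, rfl⟩ := hw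
        exact List.mem_cons_of_mem _ (ih.2 ⟨u, s, v, rfl, hu⟩)

/-- an edge of a geodesic from `y` which is used by far geodesics in the direction `p → p + sv s` is
used by the geodesic in this direction -/
theorem des_of_eds {c : Edge d → ℝ} (hc : Ok c) {y p : V d} {s : St d} {w : List (St d)}
    (hw : Geo c y w) (he : ed p s ∈ eds y w) (hf : Yr c y p s) : (p, s) ∈ des y w := by
  obtain ⟨u, t, v, rfl, hu⟩ := mem_eds_iff.1 he
  have h1 : s(pos y u, pos y u + sv t) = s(p, p + sv s) := congrArg Subtype.val hu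
  rcases Sym2.eq_iff.1 h1 with ⟨h2, h3⟩ | ⟨h2, h3⟩
  · rw [h2] at h3
    have h4 : t = s := sv_inj (add_left_cancel h3)
    subst h4
    exact mem_des.2 ⟨u, v, rfl, h2⟩
  · exfalso
    obtain ⟨z, -, hz⟩ := hf 0
    have h5 : T c y p + c (ed p s) ≤ T c y (p + sv s) := by
      have := tri hc y (p + sv s) z
      unfold Thr at hz
      linarith
    have hu' : Geo c y u := by
      have := hw.take u.length
      rwa [List.take_left] at this
    have hu2 : Geo c y (u ++ [t]) := by
      have := hw.take (u ++ [t]).length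
      rwa [show u ++ t :: v = (u ++ [t]) ++ v by simp, List.take_left] at this
    have h6 := geo_eq hc hu'
    have h7 := geo_eq hc hu2
    rw [cost_append, pos_append] at h7
    simp only [cost, pos, add_zero] at h7
    rw [hu, h3, h6, h2] at h7
    have := hc.ps (ed p s)
    linarith

/-- a geodesic from `y` through `(p, s)` to a far point -/
private theorem far_geo {c : Edge d → ℝ} (hc : Ok c) {y p : V d} {s : St d} {u : List (St d)}
    (hu : pos y u = p) (hu' : cost c y u = T c y p) (hf : Yr c y p s) (n : ℕ) :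
    ∃ w : List (St d), n ≤ w.length ∧ Geo c y w ∧ ∃ v, w = u ++ s :: v := by
  obtain ⟨R, hR⟩ := exists_nat_ge (n1 y + n)
  obtain ⟨z, hz, hT⟩ := hf R
  obtain ⟨v, hv, hv'⟩ := ex_min hc (p + sv s) z
  have hpos : pos y (u ++ s :: v) = z := by rw [pos_append, hu, pos, hv]
  refine ⟨u ++ s :: v, ?_, geo_of_le hc ?_, v, rfl⟩
  · have h1 := n1_pos_sub_le y (u ++ s :: v)
    rw [hpos] at h1
    have h2 : n1 z ≤ n1 (z - y) + n1 y := by
      have := n1_add_le (z - y) y
      rwa [sub_add_cancel] at this
    have h3 : (n : ℝ) ≤ ((u ++ s :: v).length : ℝ) := by linarith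
    exact_mod_cast h3
  · rw [hpos, cost_append, hu, cost, hu', hv']
    unfold Thr at hT
    linarith

theorem count (c : Edge d → ℝ) (hc : Ok c) (y : V d) (K : ℕ) (D : Finset (V d × St d)) (U : ℕ)
    (hU : ∀ w, Geo c y w → (D.filter (fun f => f ∈ des y w)).card ≤ U)
    (F : Finset (V d × St d)) (hF : F ⊆ D) (hE : ∀ f ∈ F, Ef K y f.1 f.2 c) :
    F.card ≤ K * U := by
  classical
  by_cases hFew : Few c y K
  · -- few rays: all edges lie on the beginnings of few geodesics
    choose u hu hu' using fun p : V d => ex_min hc y p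
    set m : ℕ := F.sup (fun f => (u f.1).length + 1) with hm
    obtain ⟨n, hn⟩ := hFew m
    have hex : ∀ f : V d × St d, f ∈ F → ∃ w : List (St d), n ≤ w.length ∧ Geo c y w ∧
        ∃ v, w = u f.1 ++ f.2 :: v := fun f hf => far_geo hc (hu f.1) (hu' f.1) (hE f hf).1 n
    choose! w hw1 hw2 hw3 using hex
    have hmem : ∀ f ∈ F, f ∈ des y ((w f).take m) := by
      intro f hf
      obtain ⟨v, hv⟩ := hw3 f hf
      have hle : (u f.1).length + 1 ≤ m := Finset.le_sup (f := fun f => (u f.1).length + 1) hf
      obtain ⟨k, hk⟩ := Nat.exists_eq_add_of_le hle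
      have h1 : (w f).take m = u f.1 ++ f.2 :: v.take k := by
        rw [hv, hk, List.take_append, List.take_of_length_le (by omega),
          show (u f.1).length + 1 + k - (u f.1).length = k + 1 by omega, List.take_succ_cons]
      rw [h1]
      exact mem_des.2 ⟨u f.1, v.take k, rfl, hu f.1⟩
    set I : Finset (List (St d)) := F.image (fun f => (w f).take m) with hI
    have hIK : I.card < K := by
      by_contra hcon
      rw [not_lt] at hcon
      obtain ⟨J, hJ, hJc⟩ := Finset.exists_subset_card_eq hcon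
      have hsel : ∀ l : J, ∃ f ∈ F, (w f).take m = l.1 := fun l => by
        simpa [hI] using hJ l.2
      choose g hg1 hg2 using hsel
      let eq := (Finset.equivFinOfCardEq hJc).symm
      refine hn (fun i => w (g (eq i))) (fun i => ⟨hw1 _ (hg1 _), hw2 _ (hg1 _)⟩) ?_
      intro i j hij
      have h1 : (w (g (eq i))).take m = (w (g (eq j))).take m := hij
      rw [hg2, hg2] at h1
      exact eq.injective (Subtype.ext h1)
    have hcov : F ⊆ I.biUnion (fun l => D.filter (fun f => f ∈ des y l)) := by
      intro f hf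
      rw [Finset.mem_biUnion]
      exact ⟨_, Finset.mem_image_of_mem _ hf, Finset.mem_filter.2 ⟨hF hf, hmem f hf⟩⟩
    calc F.card ≤ (I.biUnion (fun l => D.filter (fun f => f ∈ des y l))).card :=
          Finset.card_le_card hcov
      _ ≤ I.card * U := by
          refine Finset.card_biUnion_le_card_mul _ _ _ ?_
          intro l hl
          obtain ⟨f, hf, rfl⟩ := Finset.mem_image.1 hl
          exact hU _ ((hw2 f hf).take m)
      _ ≤ K * U := Nat.mul_le_mul_right _ hIK.le
  · -- many rays: `K` of them are enough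
    unfold Few at hFew
    push Not at hFew
    obtain ⟨m, hm⟩ := hFew
    have hfa : ∀ f : V d × St d, f ∈ F → ∃ n : ℕ, ∀ W : Fin K → List (St d),
        (∀ i, n ≤ (W i).length ∧ Geo c y (W i) ∧ ed f.1 f.2 ∉ eds y (W i)) →
        ¬ Function.Injective fun i => (W i).take m := fun f hf => (hE f hf).2 m
    choose! N hN using hfa
    obtain ⟨W, hW, hinj⟩ := hm (F.sup N)
    have hon : ∀ f ∈ F, ∃ i, f ∈ des y (W i) := by
      intro f hf
      by_contra hcon
      push Not at hcon
      refine hN f hf W (fun i => ⟨(Finset.le_sup hf).trans (hW i).1, (hW i).2, ?_⟩) hinj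
      intro hmem
      exact hcon i (des_of_eds hc (hW i).2 hmem (hE f hf).1)
    have hcov : F ⊆ (Finset.univ : Finset (Fin K)).biUnion
        (fun i => D.filter (fun f => f ∈ des y (W i))) := by
      intro f hf
      obtain ⟨i, hi⟩ := hon f hf
      rw [Finset.mem_biUnion]
      exact ⟨i, Finset.mem_univ _, Finset.mem_filter.2 ⟨hF hf, hi⟩⟩
    calc F.card ≤ _ := Finset.card_le_card hcov
      _ ≤ (Finset.univ : Finset (Fin K)).card * U :=
          Finset.card_biUnion_le_card_mul _ _ _ fun i _ => hU _ (hW i).2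
      _ = K * U := by rw [Finset.card_univ, Fintype.card_fin]

end Pool.Agent.Helper41.JT
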