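import Pool.Agent.Helper67.JT.Cnt
import Pool.Agent.Helper41.JT.Meas

/-!
# JT: the expected number of the edges `f` with `E_f` (helper67)

`count` and the integral of the number of the `f ∈ D` with `E_f`.
-/

set_option autoImplicit false

namespace Pool.Agent.Helper67.JT

open Pool.Agent.Helper41.JT Pool.Agent.Helper79.GR MeasureTheory ProbabilityTheory Filter

variable {d : ℕ} {Ω : Type*} [MeasurableSpace Ω] {P : Measure Ω} {X : Edge d → Ω → ℝ}
  {ν : Measure ℝ} {a b : ℝ}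

theorem measurableSet_Ef_cf (hm : ∀ e, Measurable (X e)) (K : ℕ) (y : V d)
    (f : V d × St d) : MeasurableSet {ω | Ef K y f.1 f.2 (cf X ω)} := by
  have hcf : Measurable fun ω => cf X ω := measurable_pi_lambda _ fun e => hm e
  exact hcf (measurableSet_Ef K y f.1 f.2)

open Classical in
/-- the deterministic bound with a real number -/
theorem count_real {c : Edge d → ℝ} (hc : Ok c) (y : V d) (K : ℕ) (D : Finset (V d × St d))
    (U : ℝ) (hU : ∀ w, Geo c y w → ((D.filter (fun f => f ∈ des y w)).card : ℝ) ≤ U) :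
    ((D.filter (fun f => Ef K y f.1 f.2 c)).card : ℝ) ≤ K * U := by
  have h0 : (0 : ℝ) ≤ U := by
    have hg : Geo c y [] := by
      intro w' _
      exact cost_nonneg hc.ps y w'
    exact (Nat.cast_nonneg _).trans (hU [] hg)
  have h1 : (D.filter (fun f => Ef K y f.1 f.2 c)).card ≤ K * ⌊U⌋₊ := by
    refine count c hc y K D ⌊U⌋₊ (fun w hw => ?_) _ (Finset.filter_subset _ _) (fun f hf => ?_)
    · refine Nat.le_floor ?_
      convert hU w hw using 4
    · exact (Finset.mem_filter.1 hf).2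
  have h2 : ((D.filter (fun f => Ef K y f.1 f.2 c)).card : ℝ) ≤ K * (⌊U⌋₊ : ℝ) := by
    exact_mod_cast h1
  exact h2.trans (mul_le_mul_of_nonneg_left (Nat.floor_le h0) (Nat.cast_nonneg _))

open Classical in
/-- The sum of the probabilities of `E_f` over a finite set. -/
theorem sum_Ef_ae [IsProbabilityMeasure P] (hm : ∀ e, Measurable (X e))
    (hOk : ∀ᵐ ω ∂P, Ok (cf X ω)) (y : V d) (K : ℕ) (D : Finset (V d × St d)) (U : ℝ)
    (hU : ∀ᵐ ω ∂P, ∀ w, Geo (cf X ω) y w →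
      ((D.filter (fun f => f ∈ des y w)).card : ℝ) ≤ U) :
    ∑ f ∈ D, P.real {ω | Ef K y f.1 f.2 (cf X ω)} ≤ K * U := by
  have hi : ∀ f ∈ D, Integrable (fun ω =>
      Set.indicator {ω | Ef K y f.1 f.2 (cf X ω)} (fun _ => (1 : ℝ)) ω) P := fun f _ =>
    (integrable_const (1 : ℝ)).indicator (measurableSet_Ef_cf hm K y f)
  have h1 : ∑ f ∈ D, P.real {ω | Ef K y f.1 f.2 (cf X ω)} =
      ∫ ω, ∑ f ∈ D, Set.indicator {ω | Ef K y f.1 f.2 (cf X ω)} (fun _ => (1 : ℝ)) ω ∂P := by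
    rw [integral_finsetSum _ hi]
    refine Finset.sum_congr rfl fun f _ => ?_
    rw [integral_indicator_const _ (measurableSet_Ef_cf hm K y f)]
    simp
  rw [h1]
  have h2 : ∫ ω, ∑ f ∈ D, Set.indicator {ω | Ef K y f.1 f.2 (cf X ω)} (fun _ => (1 : ℝ)) ω ∂P ≤
      ∫ _, (K * U : ℝ) ∂P := by
    refine integral_mono_ae (integrable_finsetSum _ hi) (integrable_const _) ?_
    filter_upwards [hOk, hU] with ω hω hUω
    have e1 : ∑ f ∈ D, Set.indicator {ω | Ef K y f.1 f.2 (cf X ω)} (fun _ => (1 : ℝ)) ω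
        = ((D.filter (fun f => Ef K y f.1 f.2 (cf X ω))).card : ℝ) := by
      rw [Finset.card_filter, Nat.cast_sum]
      refine Finset.sum_congr rfl fun f _ => ?_
      by_cases hf : Ef K y f.1 f.2 (cf X ω)
      · rw [if_pos hf, Set.indicator_of_mem (show ω ∈ {ω | Ef K y f.1 f.2 (cf X ω)} from hf)]
        simp
      · rw [if_neg hf, Set.indicator_of_notMem
          (show ω ∉ {ω | Ef K y f.1 f.2 (cf X ω)} from hf)]
        simp
    show ∑ f ∈ D, Set.indicator {ω | Ef K y f.1 f.2 (cf X ω)} (fun _ => (1 : ℝ)) ω ≤ K * U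
    rw [e1]
    exact count_real hω y K D U hUω
  simpa using h2

open Classical in
/-- The sum of the probabilities of `E_f`, general form along a sequence of finite sets. -/
theorem sum_Ef_seq [IsProbabilityMeasure P] (hm : ∀ e, Measurable (X e))
    (hOk : ∀ᵐ ω ∂P, Ok (cf X ω)) (y : V d) (K : ℕ) (D : ℕ → Finset (V d × St d)) (C : ℝ)
    (hU : ∀ M : ℕ, ∀ᵐ ω ∂P, ∀ w, Geo (cf X ω) y w →
      (((D M).filter (fun f => f ∈ des y w)).card : ℝ) ≤ C * (M + 1)) (M : ℕ) :
    ∑ f ∈ D M, P.real {ω | Ef K y f.1 f.2 (cf X ω)} ≤ K * C * (M + 1) := by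
  have h := sum_Ef_ae hm hOk y K (D M) (C * (M + 1)) (hU M)
  rw [mul_assoc]
  exact h

open Classical in
/-- The sum of the probabilities of `E_f` for weights in `[a, b]`. -/
theorem sum_Ef (h : Env P X ν a b) (y : V d) (K : ℕ) (D : ℕ → Finset (V d × St d)) (C : ℝ)
    (hU : ∀ M : ℕ, ∀ ω, ∀ w, Geo (cf X ω) y w →
      (((D M).filter (fun f => f ∈ des y w)).card : ℝ) ≤ C * (M + 1)) (M : ℕ) :
    ∑ f ∈ D M, P.real {ω | Ef K y f.1 f.2 (cf X ω)} ≤ K * C * (M + 1) := by
  have := h.prob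
  exact sum_Ef_seq h.meas (Eventually.of_forall fun ω => Ok.of_bd (h.cf_bd ω)) y K D C
    (fun M => Eventually.of_forall fun ω => hU M ω) M

/-- A bound by `2 K C M` for large `M`. -/
theorem eventually_of_sum {g : ℕ → ℝ} {K : ℕ} {C : ℝ} (hC : 0 ≤ C)
    (h : ∀ M : ℕ, g M ≤ K * C * (M + 1)) : ∀ᶠ M : ℕ in atTop, g M ≤ 2 * (K * C) * M := by
  filter_upwards [eventually_ge_atTop 1] with M hM
  have h1 : (1 : ℝ) ≤ M := by exact_mod_cast hM
  have h2 : (0 : ℝ) ≤ K * C := mul_nonneg (Nat.cast_nonneg _) hC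
  have h3 := h M
  nlinarith

end Pool.Agent.Helper67.JT
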